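import Pool.Agent.BEX.ADef

/-!
# CYL (exact bulk exponents on the honeycomb cylinder): common definitions

Notes 3171, 3178 (part A), 3180 (PF), 3181 (B), 3173 (C) and the note on part D of MP_8c6f77_pr.

Labels: `Sum.inl i` is the site (line) `i`, `Sum.inr j` the point at infinity number `j`; a through-leg is an arc
`Sum.inl i - Sum.inr j`. Only the sites are crossed by auxiliary lines.
-/

namespace Pool.Agent.CYL

open Complex Finset
open Pool.Agent.BEX

/-- The labels: `L` sites, `l` points at infinity. -/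
abbrev Lb (L l : ℕ) : Type := Fin L ⊕ Fin l

/-- States. -/
abbrev Sts (L l : ℕ) : Type := St (Lb L l)

/-- Every point at infinity is joined to a site. -/
def Chi {L l : ℕ} (m : Sts L l) : Prop := ∀ j : Fin l, ∃ i : Fin L, m (Sum.inr j) = Sum.inl i

instance {L l : ℕ} : DecidablePred (Chi (L := L) (l := l)) := fun m => by
  unfold Chi; infer_instance

/-- Arcless states: no arc between two sites. -/
def Arcless {L l : ℕ} (m : Sts L l) : Prop :=
  Chi m ∧ ∀ i k : Fin L, m (Sum.inl i) = Sum.inl k → i = k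

/-- Two different sites are joined, or are the through-sites of two different points at infinity. -/
def Jnd {L l : ℕ} (m : Sts L l) (i k : Fin L) : Prop :=
  i ≠ k ∧ (m (Sum.inl i) = Sum.inl k ∨
    ∃ j j' : Fin l, j ≠ j' ∧ m (Sum.inl i) = Sum.inr j ∧ m (Sum.inl k) = Sum.inr j')

/-- the site `i` carries a through-leg -/
def Thr {L l : ℕ} (m : Sts L l) (i : Fin L) : Prop := ∃ j : Fin l, m (Sum.inl i) = Sum.inr j

/-- the arcs do not cross -/
def G1 {L l : ℕ} (m : Sts L l) : Prop :=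
  ∀ i j k n : Fin L, i < j → j < k → k < n → m (Sum.inl i) = Sum.inl k → m (Sum.inl j) = Sum.inl n → False

/-- no arc separates two through-sites -/
def G2 {L l : ℕ} (m : Sts L l) : Prop :=
  ∀ i k : Fin L, m (Sum.inl i) = Sum.inl k → ∀ a b : Fin L, Thr m a → Thr m b → i < a → a < k → i < b ∧ b < k

/-- the through-sites of the points at infinity `0, .., l - 1` are in cyclic order -/
def G3 {L l : ℕ} (m : Sts L l) : Prop :=
  ∀ j₁ j₂ j₃ : Fin l, j₁ < j₂ → j₂ < j₃ → ∀ a b c : Fin L, m (Sum.inl a) = Sum.inr j₁ → m (Sum.inl b) = Sum.inr j₂ →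
    m (Sum.inl c) = Sum.inr j₃ → (a < b ∧ b < c) ∨ (b < c ∧ c < a) ∨ (c < a ∧ a < b)

/-- Planarity, for every number `l` of legs. -/
def NC {L l : ℕ} (m : Sts L l) : Prop := G1 m ∧ G2 m ∧ G3 m

/-- The class of states of the `l`-leg sector. -/
def Cls {L l : ℕ} (m : Sts L l) : Prop := Chi m ∧ NC m

/-- The list of the lines, in cyclic order. -/
def lns (L l : ℕ) : List (Lb L l) := (List.finRange L).map Sum.inl

/-- Rapidities on all labels. -/
def rap {L l : ℕ} (U : Fin L → ℂ) : Lb L l → ℂ := Sum.elim U 0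

/-- The transfer matrix `T(v; U)`, acting on functions of the state. -/
noncomputable def Tf {L l : ℕ} (v : ℂ) (U : Fin L → ℂ) (F : Sts L l → ℂ) : Sts L l → ℂ :=
  Tt (lns L l) v (rap U) F

/-- Its matrix: `Tm v U m' m` is the coefficient of the state `m'` in the image of the state `m`. -/
noncomputable def Tm {L l : ℕ} (v : ℂ) (U : Fin L → ℂ) : Matrix (Sts L l) (Sts L l) ℂ :=
  Matrix.of fun m' m => Tf v U (Pi.single m' 1) m

/-- Product functional on the `Chi`-states: weight `al i` of an empty site, `bb` of an occupied site (`bb² = x_c/2`). -/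
noncomputable def Oa {L l : ℕ} (al : Fin L → ℂ) (m : Sts L l) : ℂ :=
  if Chi m then ∏ i : Fin L, (if m (Sum.inl i) = Sum.inl i then al i else bb) else 0

/-- `Om_u`: weights `sin (u - U i)`. -/
noncomputable def Os {L l : ℕ} (U : Fin L → ℂ) (u : ℂ) : Sts L l → ℂ := Oa fun i => sin (u - U i)

/-- `F` vanishes off the `Chi`-states. -/
def Sup {L l : ℕ} (F : Sts L l → ℂ) : Prop := ∀ m, ¬ Chi m → F m = 0

/-- `psi` is a nonnegative joint eigenvector (a probability) of all `T(v; U)`, with eigenvalues `t v`. -/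
structure IsPsi {L l : ℕ} (U : Fin L → ℂ) (psi : Sts L l → ℝ) (t : ℂ → ℂ) : Prop where
  nonneg : ∀ m, 0 ≤ psi m
  supp : ∀ m, ¬ Cls m → psi m = 0
  sum : ∑ m, psi m = 1
  eig : ∀ (v : ℂ) (F : Sts L l → ℂ), Sup F →
    ∑ m, (psi m : ℂ) * Tf v U F m = t v * ∑ m, (psi m : ℂ) * F m

/-- The Bethe polynomial `q(u)`. -/
noncomputable def qf {L l : ℕ} (U : Fin L → ℂ) (psi : Sts L l → ℝ) (u : ℂ) : ℂ :=
  ∑ m, (psi m : ℂ) * Os U u m

/-- The rapidities `w, -w, w, -w, ..`. -/
noncomputable def Uw (L : ℕ) (w : ℝ) (i : Fin L) : ℂ := if (i : ℕ) % 2 = 0 then (w : ℂ) else -(w : ℂ)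

/-- `(**)` of note 3171 / 3178 for the rapidities `U` (statement; proved in part A). -/
def StarStar (L l : ℕ) : Prop := ∀ (U : Fin L → ℂ) (u : ℂ) (m : Sts L l), Chi m →
  (∏ i, sin (2 * lam - (u - U i))) * Tf (u + 2 * lam) U (Os U (u + lam)) m -
    (-1) ^ (L + l) * (∏ i, sin (2 * lam + (u - U i))) * Tf (u + lam) U (Os U (u - lam)) m =
  (-1) ^ l * (∏ i, sin (u - U i)) *
    ((∏ i, (sin (2 * lam - (u - U i)) * sin (lam - (u - U i)))) * Os U (u + 3 * lam) m -
      (-1) ^ l * (∏ i, (sin (2 * lam + (u - U i)) * sin (lam + (u - U i)))) * Os U (u - 3 * lam) m)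

/-- The T-Q relation for functions `t`, `q` and rapidities `U`. -/
def TQ (L l : ℕ) (U : Fin L → ℂ) (t q : ℂ → ℂ) : Prop := ∀ u : ℂ,
  t u * q (u - lam) * q (u - 2 * lam) =
    (-1) ^ (L + l) * (∏ i, (sin (2 * lam - (u - U i)) * sin (3 * lam - (u - U i)))) * q (u + lam) * q (u - 2 * lam) +
    (∏ i, (sin (u - U i) * sin (3 * lam - (u - U i)))) * q u * q (u - 3 * lam) +
    (-1) ^ l * (∏ i, (sin (u - U i) * sin (lam - (u - U i)))) * q (u - 4 * lam) * q (u - lam)

/-- Commutation of the transfer matrices on the functions supported by the `Chi`-states (statement; part A). -/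
def Comm (L l : ℕ) : Prop := ∀ (U : Fin L → ℂ) (v v' : ℂ) (F : Sts L l → ℂ), Sup F →
  Tf v U (Tf v' U F) = Tf v' U (Tf v U F)

/-- The input of part B: everything that PF and A say about the family `U = (w, -w, ..)` on `L = 2 p` sites.
`psi p` on `p` sites is the vector of the homogeneous system (for `p = l` it is not used). -/
structure Family (p l : ℕ) (psi0 : Sts p l → ℝ) where
  psi : ℝ → Sts (2 * p) l → ℝ
  t : ℝ → ℂ → ℂ
  isPsi : ∀ w : ℝ, 0 ≤ w → w < Real.pi / 8 → IsPsi (Uw (2 * p) w) (psi w) (t w)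
  cont : ∀ m, ContinuousOn (fun w => psi w m) (Set.Ico 0 (Real.pi / 8))
  /-- mirror symmetry -/
  par : ∀ w : ℝ, 0 ≤ w → w < Real.pi / 8 → ∀ u : ℂ,
    qf (Uw (2 * p) w) (psi w) (-u) = (-1) ^ (2 * p + l) * qf (Uw (2 * p) w) (psi w) u
  /-- leading coefficient: mass of the arcless states -/
  arc : ∀ w : ℝ, 0 ≤ w → w < Real.pi / 8 → ∃ m, Arcless m ∧ 0 < psi w m
  /-- fusion -/
  fus : ∃ (ws : ℕ → ℝ) (psis : Sts (2 * p) l → ℝ) (ts : ℂ → ℂ) (c : ℝ), 0 < c ∧
    (∀ n, 0 ≤ ws n ∧ ws n < Real.pi / 8) ∧ Filter.Tendsto ws Filter.atTop (nhds (Real.pi / 8)) ∧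
    (∀ m, Filter.Tendsto (fun n => psi (ws n) m) Filter.atTop (nhds (psis m))) ∧
    IsPsi (Uw (2 * p) (Real.pi / 8)) psis ts ∧ (∀ v, Filter.Tendsto (fun n => t (ws n) v) Filter.atTop (nhds (ts v))) ∧
    (0 < (ts lam).re ∧ (ts lam).im = 0) ∧
    ∀ u : ℂ, qf (Uw (2 * p) (Real.pi / 8)) psis u = (c : ℂ) * sin u ^ p * qf (fun _ => 0) psi0 u

end Pool.Agent.CYL
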